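import Pool.Agent.H35.SW.CDefs

/-!
Module SUPP: distinct subsets of `K` in the Cohen extension give a good family in `M`.
-/

set_option linter.unusedVariables false
set_option synthInstance.maxSize 100000

namespace SW

namespace Supp

/-- the pair `(v 0, v 1)` is in `v 2` -/
def Q1 (N : Type) [SetStr N] (v : Fin 3 → N) : Prop := PairIn (v 0) (v 1) (v 2)

instance Q1_u : UDf Q1 := by unfold Q1; infer_instance

/-- `v 2` is a family of distinct subsets of `v 0` indexed by `v 1` -/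
def Q2 (N : Type) [SetStr N] (v : Fin 3 → N) : Prop :=
  ∀ a b : N, E a (v 1) → E b (v 1) → a ≠ b → ∃ m : N, E m (v 0) ∧ ¬ (PairIn a m (v 2) ↔ PairIn b m (v 2))

instance Q2_u : UDf Q2 := by unfold Q2; infer_instance

variable {M : Type} [SetStr M] [ZF M]

/-- decoding of finite sets of triples -/
noncomputable def dec (K θ a w : M) : M := sep (prod (prod θ K) two) (fun z : M =>
  ∃ u c n j : M, z = opair (opair c n) j ∧ E u K ∧ E (opair u (opair n j)) w ∧ E (opair u c) a)

theorem mem_dec {K θ a w c n j : M} : E (opair (opair c n) j) (dec K θ a w) ↔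
    (E c θ ∧ E n K) ∧ E j two ∧ ∃ u, E u K ∧ E (opair u (opair n j)) w ∧ E (opair u c) a := by
  unfold dec
  rw [mem_sep, mem_prod, mem_prod, and_assoc]
  refine and_congr_right fun h => and_congr_right fun h' => ?_
  constructor
  · rintro ⟨u, c', n', j', e, h1, h2, h3⟩
    rw [opair_inj, opair_inj] at e
    obtain ⟨⟨rfl, rfl⟩, rfl⟩ := e
    exact ⟨u, h1, h2, h3⟩
  · rintro ⟨u, h1, h2, h3⟩
    exact ⟨u, c, n, j, rfl, h1, h2, h3⟩

theorem dec_sub {K θ a w z : M} (h : E z (dec K θ a w)) :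
    ∃ c n j, z = opair (opair c n) j ∧ E c θ ∧ E n K ∧ E j two := by
  unfold dec at h
  rw [mem_sep] at h
  obtain ⟨h1, u, c, n, j, rfl, _⟩ := h
  rw [mem_prod, mem_prod] at h1
  exact ⟨c, n, j, rfl, h1.1.1, h1.1.2, h1.2⟩

instance {n : ℕ} {t s u x : (Fin n → M) → M} [ht : DfT t] [hs : DfT s] [hu : DfT u] [hx : DfT x] :
    DfT (fun v => dec (t v) (s v) (u v) (x v)) := by
  unfold dec; infer_instance

theorem exists_dec (hf : FinFacts M) {K : M} (hK : HFFacts K) {θ a : M} (ha : PFun K a) :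
    ∀ q : M, Fnt q → (Sub q (prod (prod θ K) two) ∧
      ∀ c n j, E (opair (opair c n) j) q → ∃ u, E u K ∧ E (opair u c) a) →
      ∃ w, E w K ∧ dec K θ a w = q := by
  refine hf.ind (fun q : M => (Sub q (prod (prod θ K) two) ∧
      ∀ c n j : M, E (opair (opair c n) j) q → ∃ u : M, E u K ∧ E (opair u c) a) →
      ∃ w : M, E w K ∧ dec K θ a w = q) inferInstance ?_ ?_
  · rintro -
    refine ⟨emp, hK.emp, eq_emp fun z hz => ?_⟩
    obtain ⟨c, n, j, rfl, _⟩ := dec_sub hz
    rw [mem_dec] at hz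
    obtain ⟨_, _, u, _, h, _⟩ := hz
    exact not_mem_emp _ h
  · rintro x z hx hz ih ⟨h1, h2⟩
    obtain ⟨w, hw, hwx⟩ := ih ⟨fun y hy => h1 y (by rw [mem_ins]; exact Or.inl hy),
      fun c n j h => h2 c n j (by rw [mem_ins]; exact Or.inl h)⟩
    have hz' := h1 z (by rw [mem_ins]; exact Or.inr rfl)
    rw [mem_prod'] at hz'
    obtain ⟨y, j, hy, hj, rfl⟩ := hz'
    rw [mem_prod'] at hy
    obtain ⟨c, n, hc, hn, rfl⟩ := hy
    obtain ⟨u, hu, huc⟩ := h2 c n j (by rw [mem_ins]; exact Or.inr rfl)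
    have hjK : E j K := by
      unfold two at hj
      rw [mem_upair] at hj
      rcases hj with rfl | rfl
      · exact hK.emp
      · exact hK.sing hK.emp
    refine ⟨ins (opair u (opair n j)) w, hK.ins hw (hK.opair.2 ⟨hu, hK.opair.2 ⟨hn, hjK⟩⟩), ?_⟩
    refine ext fun z => ?_
    rw [mem_ins]
    constructor
    · intro h
      obtain ⟨c', n', j', rfl, hc', hn', hj'⟩ := dec_sub h
      rw [mem_dec] at h
      obtain ⟨_, _, u', hu', h3, h4⟩ := h
      rw [mem_ins] at h3
      rcases h3 with h3 | h3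
      · left
        rw [← hwx, mem_dec]
        exact ⟨⟨hc', hn'⟩, hj', u', hu', h3, h4⟩
      · right
        rw [opair_inj, opair_inj] at h3
        obtain ⟨rfl, rfl, rfl⟩ := h3
        have : c' = c := ha u' c' c hu' (pairIn_iff.2 h4) (pairIn_iff.2 huc)
        rw [this]
    · rintro (h | rfl)
      · rw [← hwx] at h
        obtain ⟨c', n', j', rfl, hc', hn', hj'⟩ := dec_sub h
        rw [mem_dec] at h ⊢
        obtain ⟨h5, h6, u', hu', h3, h4⟩ := h
        exact ⟨h5, h6, u', hu', by rw [mem_ins]; exact Or.inl h3, h4⟩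
      · rw [mem_dec]
        exact ⟨⟨hc, hn⟩, hj, u, hu, by rw [mem_ins]; exact Or.inr rfl, huc⟩

/-- Combinatorial part: a family `Mn b m` (`b ∈ k`, `m ∈ K`) of classes of conditions, finite in
each size, distinct for distinct `b`. -/
theorem comb (hf : FinFacts M) {K θ k : M} (hK : HFFacts K) (hθ : Ord θ) (hnI : ¬ Inj K θ)
    (hk : Ord k) (Mn : M → M → M → Prop) (hMn : Cl3 Mn)
    (hP : ∀ b m q, Mn b m q → E q (cohP K θ))
    (hfin : ∀ b m i, E i om → Fnt (sep (cohP K θ) (fun q => Mn b m q ∧ card q = i)))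
    (hne : ∀ b b', E b k → E b' k → b ≠ b' → ∃ m q, E m K ∧ ¬ (Mn b m q ↔ Mn b' m q)) :
    Good K k θ := by
  -- support
  let Xi : M → M → M → M := fun b m i => sep θ (fun c : M => ∃ q n j : M, Mn b m q ∧ card q = i ∧
    E (opair (opair c n) j) q)
  have hXi_df : ∀ {n : ℕ} {t s u : (Fin n → M) → M} [DfT t] [DfT s] [DfT u],
      DfT (fun v => Xi (t v) (s v) (u v)) := by
    intro n t s u _ _ _
    simp only [Xi]
    infer_instance
  have hXi : ∀ {b m i c : M}, E c (Xi b m i) ↔ E c θ ∧ ∃ q n j : M, Mn b m q ∧ card q = i ∧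
      E (opair (opair c n) j) q := by
    intro b m i c
    simp only [Xi]
    rw [mem_sep]
  have hXfin : ∀ b m i, E i om → Fnt (Xi b m i) := by
    intro b m i hi
    have h1 := hfin b m i hi
    have h2 : Fnt (sUn (sep (cohP K θ) (fun q => Mn b m q ∧ card q = i))) := by
      refine hf.sUn h1 fun y hy => ?_
      rw [mem_sep, mem_cohP] at hy
      exact hy.1.2.1
    have h3 := hf.img (fun z : M => the (fun c : M => ∃ n j : M, z = opair (opair c n) j))
      inferInstance h2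
    refine hf.sub h3 fun c hc => ?_
    rw [hXi] at hc
    obtain ⟨hc, q, n, j, h4, h5, h6⟩ := hc
    rw [mem_img' inferInstance]
    refine ⟨opair (opair c n) j, ?_, ?_⟩
    · rw [mem_sUn]
      refine ⟨q, ?_, h6⟩
      rw [mem_sep]
      exact ⟨hP _ _ _ h4, h4, h5⟩
    · symm
      refine the_eq ⟨n, j, rfl⟩ ?_
      rintro c' ⟨n', j', e⟩
      rw [opair_inj, opair_inj] at e
      exact e.1.1.symm
  -- the family
  let S : M := sep (prod (prod k K) θ) (fun z : M => ∃ b m i c : M,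
    z = opair (opair b (opair (opair m i) (card (inter (Xi b m i) c)))) c ∧ E i om ∧
      E c (Xi b m i))
  have hS : ∀ {b m' c : M}, E (opair (opair b m') c) S ↔ (E b k ∧ E m' K) ∧ E c θ ∧
      ∃ m i : M, m' = opair (opair m i) (card (inter (Xi b m i) c)) ∧ E i om ∧ E c (Xi b m i) := by
    intro b m' c
    simp only [S]
    rw [mem_sep, mem_prod, mem_prod, and_assoc]
    refine and_congr_right fun h => and_congr_right fun h' => ?_
    constructor
    · rintro ⟨b1, m1, i1, c1, e, h1, h2⟩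
      rw [opair_inj, opair_inj] at e
      obtain ⟨⟨rfl, rfl⟩, rfl⟩ := e
      exact ⟨m1, i1, rfl, h1, h2⟩
    · rintro ⟨m1, i1, rfl, h1, h2⟩
      exact ⟨b, m1, i1, c, rfl, h1, h2⟩
  have htr : ∀ {b m c : M}, TripleIn b m c S ↔ E (opair (opair b m) c) S := by
    intro b m c
    constructor
    · rintro ⟨y, hy, h⟩
      rw [isOP_iff] at hy
      rw [← hy]
      exact pairIn_iff.1 h
    · intro h
      exact ⟨_, isOP_iff.2 rfl, pairIn_iff.2 h⟩
  have htr' : ∀ {b m c R : M}, TripleIn b m c R ↔ E (opair (opair b m) c) R := by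
    intro b m c R
    constructor
    · rintro ⟨y, hy, h⟩
      rw [isOP_iff] at hy
      rw [← hy]
      exact pairIn_iff.1 h
    · intro h
      exact ⟨_, isOP_iff.2 rfl, pairIn_iff.2 h⟩
  -- members of the support are values of S
  have hval : ∀ {b m q c n j : M}, E b k → E m K → Mn b m q → E (opair (opair c n) j) q →
      E c θ ∧ ∃ m', E m' K ∧ E (opair (opair b m') c) S := by
    intro b m q c n j hb hm hq hc
    have hqP := hP _ _ _ hq
    rw [mem_cohP] at hqP
    have hcθ : E c θ := by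
      have := hqP.1 _ hc
      rw [mem_prod, mem_prod] at this
      exact this.1.1
    have hi := hf.card_om hqP.2.1
    have hcX : E c (Xi b m (card q)) := hXi.2 ⟨hcθ, q, n, j, hq, rfl, hc⟩
    have hfi : Fnt (inter (Xi b m (card q)) c) :=
      hf.sub (hXfin b m _ hi) (fun z hz => (mem_inter.1 hz).1)
    have hK' : E (opair (opair m (card q)) (card (inter (Xi b m (card q)) c))) K :=
      hK.opair.2 ⟨hK.opair.2 ⟨hm, hK.nat hi⟩, hK.nat (hf.card_om hfi)⟩
    exact ⟨hcθ, _, hK', hS.2 ⟨⟨hb, hK'⟩, hcθ, m, card q, rfl, hi, hcX⟩⟩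
  refine ⟨S, ?_, ?_, ?_⟩
  · intro b m c hb hm h
    rw [htr, hS] at h
    exact h.2.1
  · intro b m' c c' hb hm h h'
    rw [htr, hS] at h h'
    obtain ⟨_, hc, m, i, e, hi, hcX⟩ := h
    obtain ⟨_, hc', m1, i1, e', hi', hcX'⟩ := h'
    rw [e, opair_inj, opair_inj] at e'
    obtain ⟨⟨rfl, rfl⟩, e2⟩ := e'
    have key : ∀ {c c' : M}, E c θ → E c' θ → E c (Xi b m i) → E c c' →
        card (inter (Xi b m i) c) ≠ card (inter (Xi b m i) c') := by
      intro c c' hc hc' hcX hcc hcard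
      have hfi : Fnt (inter (Xi b m i) c') :=
        hf.sub (hXfin b m _ hi) (fun z hz => (mem_inter.1 hz).1)
      have h3 : Sub (inter (Xi b m i) c) (inter (Xi b m i) c') := by
        intro z hz
        rw [mem_inter] at hz ⊢
        exact ⟨hz.1, (hθ.mem hc').trans hcc hz.2⟩
      have h4 : inter (Xi b m i) c ≠ inter (Xi b m i) c' := by
        intro h5
        have h6 : E c (inter (Xi b m i) c') := by rw [mem_inter]; exact ⟨hcX, hcc⟩
        rw [← h5, mem_inter] at h6
        exact not_mem_self _ h6.2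
      have := hf.card_lt hfi h3 h4
      rw [hcard] at this
      exact not_mem_self _ this
    rcases (hθ.mem hc).tri (hθ.mem hc') with h5 | h5 | h5
    · exact absurd e2 (key hc hc' hcX h5)
    · exact h5
    · exact absurd e2.symm (key hc' hc hcX' h5)
  · rintro a ha J hJ ⟨g, hg1, hg2⟩
    apply hnI
    have hJk : ∀ {b : M}, E b J → E b k := fun h => ((hJ _).1 h).1
    -- the least index
    let Ix : M → M → Prop := fun γ b => E b J ∧ (∃ m : M, E m K ∧ E (opair (opair b m) γ) g) ∧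
      ∀ b' : M, E b' b → ¬ (E b' J ∧ ∃ m : M, E m K ∧ E (opair (opair b' m) γ) g)
    have hIx_df : Cl2 Ix := by
      simp only [Ix]
      infer_instance
    have hIx : ∀ γ, E γ θ → ∃ b, Ix γ b := by
      intro γ hγ
      obtain ⟨b, m, hb, hm, h⟩ := hg2 γ hγ
      rw [htr'] at h
      obtain ⟨b', hb'⟩ := mem_min (C := fun b : M => E b J ∧ ∃ m : M, E m K ∧
        E (opair (opair b m) γ) g) inferInstance ⟨b, hb, m, hm, h⟩
      exact ⟨b', hb'.1.1, hb'.1.2, hb'.2⟩
    have hIxu : ∀ γ b b', Ix γ b → Ix γ b' → b = b' := by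
      intro γ b b' h h'
      rcases (hk.mem (hJk h.1)).tri (hk.mem (hJk h'.1)) with h5 | h5 | h5
      · exact absurd ⟨h.1, h.2.1⟩ (h'.2.2 b h5)
      · exact h5
      · exact absurd ⟨h'.1, h'.2.1⟩ (h.2.2 b' h5)
    -- the coding
    let Cd : M → M → Prop := fun γ z => (∃ b m : M, z = opair emp m ∧ E m K ∧ Ix γ b ∧
        E (opair (opair b m) γ) g) ∨
      (∃ b m w : M, z = opair (sing emp) (opair m w) ∧ E m K ∧ E w K ∧ Ix γ b ∧
        Mn b m (dec K θ a w))
    have hCd_df : Cl2 Cd := by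
      simp only [Cd]
      infer_instance
    refine ⟨sep (prod θ K) (fun y : M => ∃ γ z : M, y = opair γ z ∧ Cd γ z), ?_⟩
    have hFm : ∀ {γ z : M}, E γ θ → E z K → (PairIn γ z (sep (prod θ K)
        (fun y : M => ∃ γ z : M, y = opair γ z ∧ Cd γ z)) ↔ Cd γ z) := by
      intro γ z hγ hz
      rw [pairIn_iff, mem_sep, mem_prod]
      constructor
      · rintro ⟨_, γ', z', e, h⟩
        rw [opair_inj] at e
        rw [e.1, e.2]; exact h
      · intro h
        exact ⟨⟨hγ, hz⟩, γ, z, rfl, h⟩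
    intro γ γ' hγ hγ' hne'
    by_contra hcon
    have hag : ∀ z, E z K → (Cd γ z ↔ Cd γ' z) := by
      intro z hz
      by_contra h
      apply hcon
      refine ⟨z, hz, ?_⟩
      rw [hFm hγ hz, hFm hγ' hz]
      exact h
    have hemp_ne : (emp : M) ≠ sing emp := by
      intro h
      have h1 : E (emp : M) (sing emp) := by rw [mem_sing]
      rw [← h] at h1
      exact not_mem_emp _ h1
    have hC1 : ∀ {γ b m : M}, Ix γ b → E m K →
        (Cd γ (opair emp m) ↔ E (opair (opair b m) γ) g) := by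
      intro γ b m hb hm
      constructor
      · rintro (⟨b', m', e, _, hb', h⟩ | ⟨b', m', w, e, _⟩)
        · rw [opair_inj] at e
          rw [hIxu _ _ _ hb hb', e.2]; exact h
        · rw [opair_inj] at e
          exact absurd e.1 hemp_ne
      · intro h
        exact Or.inl ⟨b, m, rfl, hm, hb, h⟩
    have hC2 : ∀ {γ b m w : M}, Ix γ b → E m K → E w K →
        (Cd γ (opair (sing emp) (opair m w)) ↔ Mn b m (dec K θ a w)) := by
      intro γ b m w hb hm hw
      constructor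
      · rintro (⟨b', m', e, _⟩ | ⟨b', m', w', e, _, _, hb', h⟩)
        · rw [opair_inj] at e
          exact absurd e.1.symm hemp_ne
        · rw [opair_inj, opair_inj] at e
          rw [hIxu _ _ _ hb hb', e.2.1, e.2.2]; exact h
      · intro h
        exact Or.inr ⟨b, m, w, rfl, hm, hw, hb, h⟩
    obtain ⟨b, hb⟩ := hIx γ hγ
    obtain ⟨b', hb'⟩ := hIx γ' hγ'
    have h0K : E (emp : M) K := hK.emp
    have h1K : E (sing emp : M) K := hK.sing hK.emp
    -- transfer of minimal conditions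
    have htf : ∀ {γ γ' b b' : M}, Ix γ b → Ix γ' b' → (∀ z, E z K → (Cd γ z ↔ Cd γ' z)) →
        ∀ m q, E m K → Mn b m q → Mn b' m q := by
      intro γ γ' b b' hb hb' hag m q hm hq
      have hqP := hP _ _ _ hq
      rw [mem_cohP] at hqP
      obtain ⟨w, hw, hwq⟩ := exists_dec hf hK (θ := θ) ha q hqP.2.1 ⟨hqP.1, by
        intro c n j hc
        obtain ⟨_, m', hm', h⟩ := hval (hJk hb.1) hm hq hc
        obtain ⟨u, hu, hu'⟩ := ((hJ b).1 hb.1).2 m' c hm' (htr.2 h)
        exact ⟨u, hu, pairIn_iff.1 hu'⟩⟩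
      have h1 : Cd γ (opair (sing emp) (opair m w)) := (hC2 hb hm hw).2 (by rw [hwq]; exact hq)
      rw [hag _ (hK.opair.2 ⟨h1K, hK.opair.2 ⟨hm, hw⟩⟩), hC2 hb' hm hw, hwq] at h1
      exact h1
    have hbb : b = b' := by
      by_contra hbne
      obtain ⟨m, q, hm, h⟩ := hne b b' (hJk hb.1) (hJk hb'.1) hbne
      exact h ⟨htf hb hb' hag m q hm, htf hb' hb (fun z hz => (hag z hz).symm) m q hm⟩
    subst hbb
    obtain ⟨m, hm, h⟩ := hb.2.1
    have h1 := (hC1 hb hm).2 h
    rw [hag _ (hK.opair.2 ⟨h0K, hm⟩), hC1 hb' hm] at h1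
    exact hne' (hg1 b m γ γ' hb.1 hm (htr'.2 h) (htr'.2 h1))

end Supp

open Supp in
theorem supp (hHF : HFStmt) (hREG : REGStmt) (hMINI : MINIStmt) (hSEM : SEMStmt)
    (hEMB : EMBStmt) : SUPPStmt := by
  intro M _ _ _ hf K θ hKK hθ hnI G hG _ k hk hInj
  have hK := hHF M K hKK
  let F := Coh hf K θ
  have hfs := hSEM M F
  obtain ⟨Fe, hFe⟩ := hInj
  obtain ⟨Φ, hΦ⟩ := Quot.exists_rep Fe
  have hQ2 : Q2 (Ext F G) (fun i => mk F G ((![chk F K, chk F k, Φ] : Fin 3 → M) i)) := by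
    intro a b ha hb hab
    have := hFe a b ha hb hab
    rw [← hΦ] at this
    exact this
  obtain ⟨p, hpG, hp⟩ := (hfs.truth Q2 G hG _).1 hQ2
  have hpP : E p (cohP K θ) := hG.sub p hpG
  -- forcing membership in the section
  have hR_df : Df (fun w : Fin 4 → M => FS F Q1 (w 0) ![w 1, w 2, w 3]) := by
    refine (hfs.df Q1).congr fun w => ?_
    have : (fun i : Fin 3 => w i.succ) = ![w 1, w 2, w 3] := by
      funext i
      fin_cases i <;> rfl
    rw [this]
  have hR_inst : ∀ {n : ℕ} {t s u x : (Fin n → M) → M} [DfT t] [DfT s] [DfT u] [DfT x],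
      Df (fun v => FS F Q1 (t v) ![s v, u v, x v]) := by
    intro n t s u x ht hs hu hx
    exact hR_df.comp4 (R := fun a b c d => FS F Q1 a ![b, c, d]) ht hs hu hx
  let X : M → M → M → Prop := fun b m q => E q (cohP K θ) ∧ Sub p q ∧
    FS F Q1 q ![chk F b, chk F m, Φ]
  have hX_df : Cl3 X := by
    simp only [X]
    infer_instance
  have hX1 : ∀ b m : M, Cl (fun q : M => X b m q) := by
    intro b m
    infer_instance
  have hXreg : ∀ b m q, E q (cohP K θ) → Sub p q →
      (∀ q', E q' (cohP K θ) → Sub q q' → ∃ r, Sub q' r ∧ X b m r) → X b m q := by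
    intro b m q hq hpq h
    refine ⟨hq, hpq, hfs.dense Q1 (p := q) hq fun q' hq' hle => ?_⟩
    obtain ⟨r, hr, hr'⟩ := h q' hq' hle
    exact ⟨r, hr'.1, hr, hr'.2.2⟩
  let Mn : M → M → M → Prop := fun b m q => X b m q ∧ ∀ q' : M, Sub q' q → X b m q' → q' = q
  have hMn_df : Cl3 Mn := by
    simp only [Mn]
    infer_instance
  -- truth: membership in the section is decided by the minimal conditions in the filter
  have hdec : ∀ G', Gen F G' → G' p → ∀ b m : M,
      PairIn (emb F G' b) (emb F G' m) (mk F G' Φ) ↔ ∃ q, G' q ∧ Mn b m q := by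
    intro G' hG' hpG' b m
    have h1 := hfs.truth Q1 G' hG' ![chk F b, chk F m, Φ]
    have h2 : Q1 (Ext F G') (fun i => mk F G' ((![chk F b, chk F m, Φ] : Fin 3 → M) i)) ↔
      PairIn (emb F G' b) (emb F G' m) (mk F G' Φ) := Iff.rfl
    rw [← h2, h1]
    constructor
    · rintro ⟨q, hq, hq'⟩
      obtain ⟨r, hr, hrq, hrp⟩ := hG'.dir q p hq hpG'
      have hrP : E r (cohP K θ) := hG'.sub r hr
      have hXr : X b m r := by
        refine ⟨hrP, hrp, fun G'' hG'' hr'' => hq' G'' hG'' ?_⟩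
        exact hG''.up r q hr'' (hG'.sub q hq) hrq
      have hfr : Fnt r := (mem_cohP.1 hrP).2.1
      obtain ⟨q', h3, h4, h5⟩ := hMINI M (fun q => X b m q) (hX1 b m) r hfr hXr
      exact ⟨q', hG'.up r q' hr h4.1 h3, h4, h5⟩
    · rintro ⟨q, hq, hq'⟩
      exact ⟨q, hq, hq'.1.2.2⟩
  refine comb hf hK hθ hnI hk Mn hMn_df (fun b m q h => h.1.1) ?_ ?_
  · intro b m i hi
    have h1 := hREG M K θ p i hi (fun q => X b m q) (hX1 b m) (fun q h => ⟨h.1, h.2.1⟩)
      (fun q q' h hq' hqq' => ⟨hq', h.2.1.trans hqq', fun G'' hG'' hr'' =>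
        h.2.2 G'' hG'' (hG''.up q' q hr'' h.1 hqq')⟩) (hXreg b m)
    refine hf.sub h1 fun q hq => ?_
    rw [mem_sep] at hq ⊢
    exact ⟨hq.1, hq.2.1.1, hq.2.2, hq.2.1.2⟩
  · intro b b' hb hb' hbb
    obtain ⟨G', hG', hpG'⟩ := hfs.ex p hpP
    have he := hEMB M F G' hG'
    have h1 := hp G' hG' hpG'
    have h2 := h1 (emb F G' b) (emb F G' b') ((he.mem b k).2 hb) ((he.mem b' k).2 hb')
      (fun h => hbb ((he.inj _ _).1 h))
    obtain ⟨m', hm', h3⟩ := h2
    obtain ⟨m, hm, rfl⟩ := he.trans m' K hm'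
    have h4 : ¬ (PairIn (emb F G' b) (emb F G' m) (mk F G' Φ) ↔
      PairIn (emb F G' b') (emb F G' m) (mk F G' Φ)) := h3
    rw [hdec G' hG' hpG', hdec G' hG' hpG'] at h4
    by_contra hcon
    apply h4
    have h5 : ∀ q, (Mn b m q ↔ Mn b' m q) := by
      intro q
      by_contra h6
      exact hcon ⟨m, q, hm, h6⟩
    constructor
    · rintro ⟨q, hq, hq'⟩
      exact ⟨q, hq, (h5 q).1 hq'⟩
    · rintro ⟨q, hq, hq'⟩
      exact ⟨q, hq, (h5 q).2 hq'⟩

end SW
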